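import Mathlib

set_option autoImplicit false

namespace Pool.Agent.Results.MP_31d4f2_co.No

/-- Positions: `term true` is `*L`, `term false` is `*R`, and `node n f` has the `n + 1` options
`f i`. -/
inductive Pos
  | term (b : Bool)
  | node (n : ℕ) (f : Fin (n + 1) → Pos)

open Pos

/-- The sum of a terminal position and a position. -/
def addT (b : Bool) : Pos → Pos
  | term c => term (b == c)
  | node n f => node n fun i => addT b (f i)

/-- The sum of `node n f` and a position, given the sums `s i` of the options `f i`. -/
def addN (n : ℕ) (s : Fin (n + 1) → Pos → Pos) : Pos → Pos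
  | term c => node n fun i => s i (term c)
  | node m g => node (n + 1 + m) (Fin.addCases (m := n + 1) (n := m + 1)
      (fun i => s i (node m g)) fun j => addN n s (g j))

/-- The disjunctive sum. -/
def add : Pos → Pos → Pos
  | term b => addT b
  | node n f => addN n fun i => add (f i)

/-- `win G t`: Left wins `G`, where Left moves first iff `t`. -/
def win : Pos → Bool → Prop
  | term b, _ => b = true
  | node _ f, true => ∃ i, win (f i) false
  | node _ f, false => ∀ i, win (f i) true

/-- Equivalence: same outcome in every sum. -/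
def Eqv (G H : Pos) : Prop := ∀ X t, win (add G X) t ↔ win (add H X) t

/-- Isomorphism of positions. -/
def Iso : Pos → Pos → Prop
  | term b, term c => b = c
  | node _ f, node _ g => (∀ i, ∃ j, Iso (f i) (g j)) ∧ ∀ j, ∃ i, Iso (f i) (g j)
  | _, _ => False

/-- `G` has an option equivalent to `H`. -/
def HasOpt : Pos → Pos → Prop
  | term _, _ => False
  | node _ f, H => ∃ i, Eqv (f i) H

/-- The position whose only option is `G`. -/
def single (G : Pos) : Pos := node 0 fun _ => G

/-- One simplification step: (S1), (S2), or a step inside an option. -/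
inductive Step : Pos → Pos → Prop
  | s1 (b : Bool) (n : ℕ) (f : Fin (n + 1) → Pos) : (∃ i, Eqv (f i) (single (term b))) →
      (∀ j, HasOpt (f j) (term b)) → Step (node n f) (term b)
  | s2 (n : ℕ) (f : Fin (n + 1) → Pos) (i : Fin (n + 1)) : 1 ≤ n →
      (∀ j, j ≠ i → HasOpt (f j) (single (f i))) → Step (node n f) (single (f i))
  | inner (n : ℕ) (f : Fin (n + 1) → Pos) (i : Fin (n + 1)) (H : Pos) : Step (f i) H →
      Step (node n f) (node n (Function.update f i H))

/-- No simplification step applies. -/
def Reduced (G : Pos) : Prop := ∀ H, ¬ Step G H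

instance dec : ∀ G t, Decidable (win G t)
  | term _, _ => by unfold win; infer_instance
  | node _ f, true => by haveI := fun i => dec (f i) false; unfold win; infer_instance
  | node _ f, false => by haveI := fun i => dec (f i) true; unfold win; infer_instance

def Z : Pos := node 1 ![term true, term false]

def X : Pos := node 1 ![term true, Z]

lemma exi {n m : ℕ} {p : Fin (n + 1 + (m + 1)) → Prop} :
    (∃ i, p i) ↔ (∃ i, p (Fin.castAdd (m + 1) i)) ∨ ∃ j, p (Fin.natAdd (n + 1) j) :=
  ⟨fun ⟨i, h⟩ => by
    induction i using Fin.addCases with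
    | left i => exact .inl ⟨i, h⟩
    | right j => exact .inr ⟨j, h⟩, fun h => h.elim (fun ⟨_, h⟩ => ⟨_, h⟩) fun ⟨_, h⟩ => ⟨_, h⟩⟩

lemma winT {n m : ℕ} {f : Fin (n + 1) → Pos} {g : Fin (m + 1) → Pos} :
    win (add (node n f) (node m g)) true ↔ (∃ i, win (add (f i) (node m g)) false) ∨
      ∃ j, win (add (node n f) (g j)) false := by
  refine (exi (n := n) (m := m)).trans ?_
  simp only [Fin.addCases_left, Fin.addCases_right]
  rfl

lemma winF {n m : ℕ} {f : Fin (n + 1) → Pos} {g : Fin (m + 1) → Pos} :
    win (add (node n f) (node m g)) false ↔ (∀ i, win (add (f i) (node m g)) true) ∧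
      ∀ j, win (add (node n f) (g j)) true := by
  refine (Fin.forall_fin_add (m := n + 1) (n := m + 1) _).trans ?_
  simp only [Fin.addCases_left, Fin.addCases_right]
  rfl

lemma key : Eqv (term true) (single X) := by
  intro Y
  induction Y with
  | term c => intro t; cases c <;> cases t <;> decide +kernel
  | node m g ih =>
    intro t
    cases t
    · rw [single, winF]
      refine ⟨fun h => ⟨fun _ => winT.2 (.inl ⟨0, h⟩), fun j => (ih j _).1 (h j)⟩,
        fun h j => (ih j _).2 (h.2 j)⟩
    · rw [single, winT]
      refine ⟨fun ⟨j, h⟩ => .inr ⟨j, (ih j _).1 h⟩, ?_⟩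
      rintro (⟨_, h⟩ | ⟨j, h⟩)
      exacts [(winF.1 h).1 0, ⟨j, (ih j _).2 h⟩]

lemma redT (b : Bool) : Reduced (term b) := fun _ h => by cases h

lemma redZ : Reduced Z := fun _ h => by
  cases h with
  | s1 b _ _ _ h => exact h 0
  | s2 _ _ i _ h => fin_cases i; exacts [h 1 (by decide), h 0 (by decide)]
  | inner _ _ i _ h => fin_cases i <;> exact redT _ _ h

lemma redX : Reduced X := fun _ h => by
  cases h with
  | s1 b _ _ _ h => exact h 0
  | s2 _ _ i _ h =>
    fin_cases i
    · obtain ⟨j, e⟩ := h 1 (by decide)
      fin_cases j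
      · exact absurd (e (single Z) true) (by decide +kernel)
      · exact absurd (e (term true) true) (by decide +kernel)
    · exact h 0 (by decide)
  | inner _ _ i _ h => fin_cases i; exacts [redT _ _ h, redZ _ h]

theorem result : ∃ G A B : Pos, Relation.ReflTransGen Step G A ∧ Relation.ReflTransGen Step G B ∧
    Reduced A ∧ Reduced B ∧ ¬ Iso A B := by
  refine ⟨node 1 ![X, single (term true)], term true, single X, .single (.s1 _ _ _
    ⟨1, fun _ _ => Iff.rfl⟩ ?_), .single (.s2 _ _ 0 le_rfl ?_), redT _, fun _ h => ?_, id⟩
  · intro j; fin_cases j <;> exact ⟨0, fun _ _ => Iff.rfl⟩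
  · intro j hj
    fin_cases j
    exacts [absurd rfl hj, ⟨0, key⟩]
  · cases h with
    | s1 b _ _ h _ =>
      obtain ⟨_, e⟩ := h
      change Eqv X _ at e
      cases b
      · exact absurd (e (term true) true) (by decide +kernel)
      · exact absurd (e (single (single Z)) true) (by decide +kernel)
    | s2 _ _ _ h _ => omega
    | inner _ _ _ _ h => exact redX _ h

end Pool.Agent.Results.MP_31d4f2_co.No
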